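import Mathlib

namespace Pool.Agent.Results.MP_0168d2_co.Cex

variable {A : Type}

/-- a factorial, extendable language using every letter -/
def IsLang (L : Set (List A)) : Prop :=
  [] ∈ L ∧ (∀ a, [a] ∈ L) ∧ (∀ v ∈ L, v.tail ∈ L ∧ v.dropLast ∈ L) ∧
    ∀ v ∈ L, ∃ a b, a :: v ∈ L ∧ v ++ [b] ∈ L

def Bispecial (L : Set (List A)) (w : List A) : Prop :=
  w ∈ L ∧ (∃ a a', a ≠ a' ∧ a :: w ∈ L ∧ a' :: w ∈ L) ∧
    ∃ b b', b ≠ b' ∧ w ++ [b] ∈ L ∧ w ++ [b'] ∈ L

/-- order condition for the pair (`<`, reverse of `<`) -/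
def SymOrder [LinearOrder A] (L : Set (List A)) : Prop :=
  ∀ v, Bispecial L v → ∀ x y x' y', x :: (v ++ [y]) ∈ L → x' :: (v ++ [y']) ∈ L →
    x ≠ x' → y ≠ y' → (x < x' ↔ y' < y)

/-- no bispecial word has a connection for the pair (`<`, reverse of `<`) -/
def NoConnection [LinearOrder A] (L : Set (List A)) : Prop :=
  ∀ w, Bispecial L w → ¬ ∃ a a' b b', a ⋖ a' ∧ b' ⋖ b ∧ a :: (w ++ [b]) ∈ L ∧
    a' :: (w ++ [b']) ∈ L ∧ a :: (w ++ [b']) ∉ L ∧ a' :: (w ++ [b]) ∉ L

/-- number of palindromes of length `n` -/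
noncomputable def PC (L : Set (List A)) (n : ℕ) : ℕ :=
  {w | w ∈ L ∧ w.length = n ∧ w.reverse = w}.ncard

def R (x y : Fin 4) : Prop :=
  (x, y) ∈ [((0 : Fin 4), (1 : Fin 4)), (0, 2), (0, 3), (1, 1), (2, 1), (3, 0), (3, 1)]

instance : DecidableRel R := fun x y => by unfold R; infer_instance

def L0 : Set (List (Fin 4)) := {w | w.IsChain R}

lemma ones (w : List (Fin 4)) (b : Fin 4) (h : ((1 : Fin 4) :: (w ++ [b])).IsChain R) : b = 1 := by
  induction w with
  | nil =>
    have : R 1 b := by simpa using h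
    revert b; decide
  | cons c w ih =>
    rw [List.cons_append, List.isChain_cons_cons] at h
    have : c = 1 := (by decide : ∀ c, R 1 c → c = 1) c h.1
    subst this
    exact ih h.2

lemma bis (w : List (Fin 4)) (h : Bispecial L0 w) : w = [] := by
  obtain ⟨-, ⟨a, a', ha, h1, h2⟩, b, b', hb, h3, h4⟩ := h
  cases w with
  | nil => rfl
  | cons c w =>
    have e1 : R a c := (List.isChain_cons_cons.1 h1).1
    have e2 : R a' c := (List.isChain_cons_cons.1 h2).1
    have : c = 1 := (by decide : ∀ a a' c, a ≠ a' → R a c → R a' c → c = 1) a a' c ha e1 e2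
    subst this
    exact absurd ((ones w b h3).trans (ones w b' h4).symm) hb

theorem result : ∃ L : Set (List (Fin 4)),
    IsLang L ∧ SymOrder L ∧ NoConnection L ∧ PC L 3 = 3 := by
  refine ⟨L0, ⟨by simp [L0], by simp [L0], fun v hv => ⟨List.IsChain.tail hv,
    List.IsChain.dropLast hv⟩, fun v hv => ?_⟩, ?_, ?_, ?_⟩
  · have h1 : ∀ c, ∃ a, R a c := by decide
    have h2 : ∀ c, ∃ a, R c a := by decide
    have k1 : ∃ a, a :: v ∈ L0 := by
      cases v with
      | nil => exact ⟨0, by simp [L0]⟩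
      | cons c w =>
        obtain ⟨a, ha⟩ := h1 c
        exact ⟨a, List.isChain_cons_cons.2 ⟨ha, hv⟩⟩
    have k2 : ∃ b, v ++ [b] ∈ L0 := by
      rcases v.eq_nil_or_concat with rfl | ⟨w, c, rfl⟩
      · exact ⟨0, by simp [L0]⟩
      · obtain ⟨b, hb⟩ := h2 c
        refine ⟨b, ?_⟩
        have hv' : (w ++ [c]).IsChain R := by simpa [L0] using hv
        show (w.concat c ++ [b]).IsChain R
        rw [List.concat_eq_append, List.isChain_append]
        refine ⟨hv', by simp, ?_⟩
        simpa using hb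
    obtain ⟨a, ha⟩ := k1
    obtain ⟨b, hb⟩ := k2
    exact ⟨a, b, ha, hb⟩
  · intro v hv
    rw [bis v hv]
    simp only [L0, List.nil_append, Set.mem_ofPred_eq, List.isChain_pair]
    decide
  · intro v hv
    rw [bis v hv]
    simp only [L0, List.nil_append, Set.mem_ofPred_eq, List.isChain_pair, CovBy]
    decide
  · have : {w | w ∈ L0 ∧ w.length = 3 ∧ w.reverse = w} =
        (({[0, 3, 0], [3, 0, 3], [1, 1, 1]} : Finset (List (Fin 4))) : Set (List (Fin 4))) := by
      ext w
      constructor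
      · rintro ⟨h1, h2, h3⟩
        obtain ⟨a, b, c, rfl⟩ := List.length_eq_three.1 h2
        simp only [L0, Set.mem_ofPred_eq, List.isChain_cons_cons, List.isChain_singleton] at h1
        rw [Finset.mem_coe]
        revert a b c
        decide
      · intro h
        simp only [Finset.coe_insert, Finset.coe_singleton, Set.mem_insert_iff,
          Set.mem_singleton_iff] at h
        rcases h with rfl | rfl | rfl <;> refine ⟨?_, rfl, rfl⟩ <;> unfold L0 <;> decide
    rw [PC, this, Set.ncard_coe_finset]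
    decide

end Pool.Agent.Results.MP_0168d2_co.Cex
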